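import Mathlib

namespace Pool.Agent.Results.MP_09543b_pr.InfFix

open Finset

/-- The automaton distributional map: `Psi A χ x s` is the probability that a vertex with
`N ~ χ` children, whose states are independent with law `x`, receives the state `s`
(the explicit formula of the problem file). -/
noncomputable def Psi {S : Type} [Fintype S] [DecidableEq S] (A : (S → ℕ) → S) (χ : ℕ → ℝ)
    (x : S → ℝ) (s : S) : ℝ :=
  ∑' m : ℕ, χ m * ∑ n ∈ (piAntidiag (univ : Finset S) m).filter (fun n => A n = s),
    ((m.factorial : ℝ) / ∏ t, ((n t).factorial : ℝ)) * ∏ t, x t ^ n t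

/-- `χ` is a child distribution: a probability measure on `ℕ` charging `{2, 3, ...}`. -/
def IsChild (χ : ℕ → ℝ) : Prop :=
  (∀ m, 0 ≤ χ m) ∧ HasSum χ 1 ∧ ∃ m, 2 ≤ m ∧ 0 < χ m

section aux

variable {S : Type} [Fintype S] [DecidableEq S]

/-- the automaton -/
def aut (o a b : S) (n : S → ℕ) : S :=
  if n a = 1 ∧ n b = 0 then a else if n a = 0 ∧ n b = 1 then b else o

/-- the probability vectors -/
noncomputable def vec (o a b : S) (t : ℝ) (s : S) : ℝ :=
  if s = o then 1 / 2 else if s = a then t else if s = b then 1 / 2 - t else 0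

lemma sum_vec {o a b : S} (hoa : o ≠ a) (hob : o ≠ b) (hab : a ≠ b) (t : ℝ) :
    ∑ s, vec o a b t s = 1 := by
  have h : ∀ s, vec o a b t s = (if s = o then (1 / 2 : ℝ) else 0) + (if s = a then t else 0)
      + (if s = b then (1 / 2 - t) else 0) := by
    intro s
    unfold vec
    split_ifs <;> simp_all
  simp only [h, sum_add_distrib, sum_ite_eq', mem_univ, if_true]
  ring

/-- the weight of a count vector with two children -/
noncomputable def wt (x : S → ℝ) (n : S → ℕ) : ℝ :=
  (((2 : ℕ).factorial : ℝ) / ∏ t, ((n t).factorial : ℝ)) * ∏ t, x t ^ n t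

lemma sum_wt (x : S → ℝ) (hx : ∑ s, x s = 1) :
    ∑ n ∈ piAntidiag (univ : Finset S) 2, wt x n = 1 := by
  have h := Finset.sum_pow_eq_sum_piAntidiag (univ : Finset S) x 2
  rw [hx, one_pow] at h
  rw [h]
  refine Finset.sum_congr rfl fun n hn => ?_
  rw [mem_piAntidiag] at hn
  unfold wt
  congr 1
  have h2 := Nat.multinomial_spec (univ : Finset S) n
  rw [hn.1] at h2
  have h3 : (∏ t, ((n t).factorial : ℝ)) * (Nat.multinomial univ n : ℝ)
      = ((2 : ℕ).factorial : ℝ) := by
    exact_mod_cast h2
  have h4 : (∏ t, ((n t).factorial : ℝ)) ≠ 0 := by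
    refine Finset.prod_ne_zero_iff.2 fun t _ => ?_
    exact_mod_cast (Nat.factorial_pos _).ne'
  rw [← h3]
  field_simp

/-- two children, one in state `c`, the other in state `o`. -/
def two (o c : S) (s : S) : ℕ := (if s = o then 1 else 0) + (if s = c then 1 else 0)

lemma wt_two (x : S → ℝ) {o c : S} (h : o ≠ c) : wt x (two o c) = 2 * (x o * x c) := by
  unfold wt
  have h1 : ∏ t, ((two o c t).factorial : ℝ) = 1 := by
    refine Finset.prod_eq_one fun t _ => ?_
    unfold two
    split_ifs with h1 h2 <;> simp_all
  have h2 : ∏ t, x t ^ two o c t = x o * x c := by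
    unfold two
    simp only [pow_add, Finset.prod_mul_distrib, pow_ite, pow_one, pow_zero]
    simp
  rw [h1, h2]
  norm_num [Nat.factorial]

lemma sum_single (x : S → ℝ) {o c d : S} (hoc : o ≠ c) (hod : o ≠ d) (hcd : c ≠ d)
    (hx : ∀ s, s ≠ o → s ≠ c → s ≠ d → x s = 0) :
    ∑ n ∈ (piAntidiag (univ : Finset S) 2).filter (fun n => n c = 1 ∧ n d = 0), wt x n
      = 2 * (x o * x c) := by
  rw [← wt_two x hoc]
  apply Finset.sum_eq_single
  · intro n hn hne
    rw [mem_filter, mem_piAntidiag] at hn
    obtain ⟨⟨hs, -⟩, hc, hd⟩ := hn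
    by_contra hw
    apply hne
    have hz : ∀ s, s ≠ o → s ≠ c → n s = 0 := by
      intro s h1 h2
      by_cases h3 : s = d
      · rw [h3, hd]
      · by_contra h4
        apply hw
        have hp : ∏ t, x t ^ n t = 0 :=
          Finset.prod_eq_zero (mem_univ s) (by rw [hx s h1 h2 h3, zero_pow h4])
        unfold wt
        rw [hp, mul_zero]
    have ho : n o = 1 := by
      have h5 : ∑ s, n s = n o + n c := by
        rw [← Finset.sum_pair hoc]
        symm
        apply Finset.sum_subset (subset_univ _)
        intro s _ hs'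
        simp only [mem_insert, mem_singleton, not_or] at hs'
        exact hz s hs'.1 hs'.2
      rw [h5] at hs
      omega
    funext s
    unfold two
    by_cases h1 : s = o
    · subst h1
      simp [ho, hoc]
    · by_cases h2 : s = c
      · subst h2
        simp [hc, h1]
      · simp [hz s h1 h2, h1, h2]
  · intro h
    exfalso
    apply h
    rw [mem_filter, mem_piAntidiag]
    refine ⟨⟨?_, fun _ _ => mem_univ _⟩, ?_, ?_⟩
    · unfold two
      simp [Finset.sum_add_distrib]
    · simp [two, hoc.symm]
    · simp [two, hod.symm, hcd.symm]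

lemma fixed {o a b : S} (hoa : o ≠ a) (hob : o ≠ b) (hab : a ≠ b) (t : ℝ) :
    Psi (aut o a b) (fun m => if m = 2 then 1 else 0) (vec o a b t) = vec o a b t := by
  funext s
  have h0 : Psi (aut o a b) (fun m => if m = 2 then 1 else 0) (vec o a b t) s
      = ∑ n ∈ (piAntidiag (univ : Finset S) 2).filter (fun n => aut o a b n = s),
        wt (vec o a b t) n := by
    unfold Psi
    rw [tsum_eq_single 2]
    · simp [wt]
    · intro m hm
      simp [hm]
  have hxz : ∀ s, s ≠ o → s ≠ a → s ≠ b → vec o a b t s = 0 := by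
    intro s h1 h2 h3
    simp [vec, h1, h2, h3]
  have ha : ∑ n ∈ (piAntidiag (univ : Finset S) 2).filter (fun n => aut o a b n = a),
        wt (vec o a b t) n = vec o a b t a := by
    have h := sum_single (vec o a b t) hoa hob hab hxz
    have h' : (piAntidiag (univ : Finset S) 2).filter (fun n => aut o a b n = a)
        = (piAntidiag (univ : Finset S) 2).filter (fun n => n a = 1 ∧ n b = 0) := by
      refine Finset.filter_congr fun n _ => ?_
      unfold aut
      split_ifs with h1 h2
      · simp [h1]
      · simp [h1, hab.symm]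
      · simp [h1, hoa]
    rw [h', h]
    simp [vec, hoa.symm]
  have hb : ∑ n ∈ (piAntidiag (univ : Finset S) 2).filter (fun n => aut o a b n = b),
        wt (vec o a b t) n = vec o a b t b := by
    have h := sum_single (vec o a b t) hob hoa hab.symm (fun s h1 h2 h3 => hxz s h1 h3 h2)
    have h' : (piAntidiag (univ : Finset S) 2).filter (fun n => aut o a b n = b)
        = (piAntidiag (univ : Finset S) 2).filter (fun n => n b = 1 ∧ n a = 0) := by
      refine Finset.filter_congr fun n _ => ?_
      unfold aut
      split_ifs with h1 h2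
      · simp [h1, hab]
      · simp [h2]
      · simp only [hob, false_iff]
        intro h3
        exact h2 ⟨h3.2, h3.1⟩
    rw [h', h]
    simp [vec, hob.symm]
  rw [h0]
  by_cases hsa : s = a
  · rw [hsa, ha]
  by_cases hsb : s = b
  · rw [hsb, hb]
  by_cases hso : s = o
  · have htot : ∑ n ∈ (piAntidiag (univ : Finset S) 2).filter (fun n => aut o a b n = a),
        wt (vec o a b t) n
        + ∑ n ∈ (piAntidiag (univ : Finset S) 2).filter (fun n => aut o a b n = b),
        wt (vec o a b t) n
        + ∑ n ∈ (piAntidiag (univ : Finset S) 2).filter (fun n => aut o a b n = o),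
        wt (vec o a b t) n = 1 := by
      rw [← sum_wt (vec o a b t) (sum_vec hoa hob hab t)]
      simp only [Finset.sum_filter]
      rw [← Finset.sum_add_distrib, ← Finset.sum_add_distrib]
      refine Finset.sum_congr rfl fun n _ => ?_
      unfold aut
      split_ifs <;> simp_all
    rw [ha, hb] at htot
    rw [hso]
    have h1 : vec o a b t a = t := by simp [vec, hoa.symm]
    have h2 : vec o a b t b = 1 / 2 - t := by simp [vec, hob.symm, hab.symm]
    have h3 : vec o a b t o = 1 / 2 := by simp [vec]
    rw [h1, h2] at htot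
    rw [h3]
    linarith
  · rw [hxz s hso hsa hsb]
    apply Finset.sum_eq_zero
    intro n hn
    exfalso
    rw [mem_filter] at hn
    have := hn.2
    unfold aut at this
    split_ifs at this <;> simp_all

end aux

/-- For every finite set of at least three states there are a tree automaton and a child
distribution whose distributional map has infinitely many fixed points in the simplex. -/
theorem result (S : Type) [Fintype S] [DecidableEq S] (hS : 3 ≤ Fintype.card S) :
    ∃ (A : (S → ℕ) → S) (χ : ℕ → ℝ), IsChild χ ∧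
      {x : S → ℝ | x ∈ stdSimplex ℝ S ∧ Psi A χ x = x}.Infinite := by
  obtain ⟨o, a, b, hoa, hob, hab⟩ : ∃ o a b : S, o ≠ a ∧ o ≠ b ∧ a ≠ b := by
    have : 2 < Fintype.card S := hS
    exact Fintype.two_lt_card_iff.1 this
  refine ⟨aut o a b, fun m => if m = 2 then 1 else 0, ⟨?_, ?_, ⟨2, le_rfl, by simp⟩⟩, ?_⟩
  · intro m
    dsimp only
    split_ifs <;> norm_num
  · exact hasSum_ite_eq 2 1
  · have hinj : Set.InjOn (fun t : ℝ => vec o a b t) (Set.Icc 0 (1 / 2)) := by
      intro t _ t' _ h
      have h' := congrFun h a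
      simpa [vec, hoa.symm] using h'
    have hinf : (Set.Icc (0 : ℝ) (1 / 2)).Infinite := Set.Icc_infinite (by norm_num)
    refine ((Set.infinite_image_iff hinj).2 hinf).mono ?_
    rintro _ ⟨t, ht, rfl⟩
    refine ⟨⟨?_, sum_vec hoa hob hab t⟩, fixed hoa hob hab t⟩
    intro s
    have h1 := ht.1
    have h2 := ht.2
    dsimp only [vec]
    split_ifs <;> linarith

end Pool.Agent.Results.MP_09543b_pr.InfFix
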